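import Pool.Agent.Helper101_Scrib.Common

/-!
# In every dimension `d ≥ 5` there are polytopes that are not `(1, d-1)`-scribable
-/

namespace Pool.Agent.Results.MP_822fc8_co.NotEdgeFacetScribable

open Pool.Agent.Helper101_Scrib

/-- For every `d ≥ 5` (in particular for every odd `d ≥ 5`) there is a `d`-polytope, given by
the cone `K` over a polytope in the affine chart, that is not strongly `(1, d-1)`-scribable. -/
theorem result : ∀ d : ℕ, 5 ≤ d → ∃ K : Set (Amb d), IsPolytopeCone d K ∧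
    (∀ x ∈ K, x ≠ 0 → 0 < x 0) ∧ ¬ Scribable d 1 (d - 1) K := by
  intro d hd
  classical
  obtain ⟨b, hb⟩ := exists_affine_basis d
  obtain ⟨F, hF⟩ := exists_frame hd b
  refine ⟨conicHull F.verts, F.isPolytopeCone (by omega), ?_, ?_⟩
  · intro x hx hne
    exact F.first_coord (by rw [hF]; exact hb) hx hne
  rintro ⟨K', hK', hT, havoid, hcuts⟩
  obtain ⟨X, hXK, hreal⟩ := realization (by omega) F.empty_face (fun v hv => F.vertex hv) hK' hT
  have hX : Rz F.verts X := by
    intro φ hφ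
    obtain ⟨φ', h1, h2, h3, _⟩ := hreal φ hφ
    exact ⟨φ', fun v hv => h1 _ (hXK v hv), h2, h3⟩
  obtain ⟨e, he⟩ := Frame.exists_common hX
  have hXe : ∀ k l, k ≠ l → ∃ w : ℝ, 0 < w ∧ X (F.u k l) = w • e k + (w * eps k l) • e l := by
    intro k l hkl
    obtain ⟨a, ha, h⟩ := he k l hkl
    refine ⟨a⁻¹, inv_pos.2 ha, ?_⟩
    have : X (F.u k l) = a⁻¹ • (a • X (F.u k l)) := by rw [inv_smul_smul₀ ha.ne']
    rw [this, ← h, smul_add, smul_smul]
  have hspan : ∀ k l, k ≠ l → X (F.u k l) ∈ Submodule.span ℝ (Set.range e) := by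
    intro k l hkl
    obtain ⟨w, _, h⟩ := hXe k l hkl
    rw [h]
    exact Submodule.add_mem _ (Submodule.smul_mem _ _ (Submodule.subset_span ⟨k, rfl⟩))
      (Submodule.smul_mem _ _ (Submodule.subset_span ⟨l, rfl⟩))
  -- edges avoid
  have hpair : ∀ k l, k ≠ l → ∀ s t : ℝ, 0 ≤ bil (s • e k + t • e l) (s • e k + t • e l) := by
    intro k l hkl s t
    obtain ⟨φ', h1, h2, _, h4, _⟩ := hreal (F.lf (Frame.ef k l)) (F.ef_verts_nonneg k l)
    rw [F.linDim_edge hkl] at h4
    obtain ⟨m, hm0, _, hm2, hm3⟩ := havoid _ ⟨φ', h1, rfl⟩ h4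
    have k1 : m (X (F.u k l)) = 0 := by
      have : X (F.u k l) ∈ {x | x ∈ K' ∧ φ' x = 0} :=
        ⟨hXK _ (F.u_mem hkl), (h2 _ (F.u_mem hkl)).2 (F.lf_ef_u k l)⟩
      rw [hm2] at this
      exact this.2
    have k2 : m (X (F.u l k)) = 0 := by
      have : X (F.u l k) ∈ {x | x ∈ K' ∧ φ' x = 0} :=
        ⟨hXK _ (F.u_mem hkl.symm), (h2 _ (F.u_mem hkl.symm)).2 (F.lf_ef_u' k l)⟩
      rw [hm2] at this
      exact this.2
    obtain ⟨a1, _, r1⟩ := he k l hkl
    obtain ⟨a2, _, r2⟩ := he l k hkl.symm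
    have s1 := congrArg m r1
    have s2 := congrArg m r2
    simp only [map_add, map_smul, smul_eq_mul, k1, k2, mul_zero] at s1 s2
    have b1 := eps_lo k l
    have b2 := eps_hi k l
    have b3 := eps_lo l k
    have b4 := eps_hi l k
    have hprod : eps k l * eps l k < 1 := by nlinarith
    have hk : m (e k) = 0 := by
      have : (1 - eps k l * eps l k) * m (e k) = 0 := by linear_combination s1 - eps k l * s2
      rcases mul_eq_zero.1 this with h | h
      · linarith
      · exact h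
    have hl : m (e l) = 0 := by
      rw [hk, mul_zero, add_zero] at s2
      exact s2
    apply lorentz hm0 hm3
    rw [map_add, map_smul, map_smul, hk, hl, smul_zero, smul_zero, add_zero]
  -- facets cut
  have hcut : ∀ k, ∃ x : Amb d, x ≠ 0 ∧ bil x x ≤ 0 ∧ ∃ W : ℝ, ∃ t : Fin (d + 1) → ℝ,
      0 ≤ W ∧ (∀ l, 0 ≤ t l) ∧ ∑ l, t l ≤ (2 / 5) * W ∧ x = W • e k + ∑ l, t l • e l := by
    intro k
    obtain ⟨φ', h1, _, _, h4, h5⟩ := hreal (F.lf (Frame.ff k)) (F.ff_verts_nonneg k)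
    rw [F.linDim_facet k] at h4
    obtain ⟨x, hxi, hxb⟩ := hcuts _ ⟨φ', h1, rfl⟩ (by rw [h4]; omega)
    have hxF := intrinsicInterior_subset hxi
    obtain ⟨c, hc0, hc1, hcx⟩ := h5 x hxF.1 hxF.2
    refine ⟨x, ne_zero_of_ball hxb, bil_le_of_ball hxb, ?_⟩
    rw [hcx]
    refine Finset.sum_induction (fun v => c v • X v) (fun x => ∃ W : ℝ, ∃ t : Fin (d + 1) → ℝ,
      0 ≤ W ∧ (∀ l, 0 ≤ t l) ∧ ∑ l, t l ≤ (2 / 5) * W ∧ x = W • e k + ∑ l, t l • e l) ?_ ?_ ?_
    · rintro x y ⟨W, t, hW, ht, hts, rfl⟩ ⟨W', t', hW', ht', hts', rfl⟩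
      refine ⟨W + W', t + t', add_nonneg hW hW', fun l => add_nonneg (ht l) (ht' l), ?_, ?_⟩
      · simp only [Pi.add_apply, Finset.sum_add_distrib]
        linarith
      · simp only [Pi.add_apply, add_smul, Finset.sum_add_distrib]
        abel
    · exact ⟨0, 0, le_rfl, fun l => le_rfl, by simp, by simp⟩
    · intro v hv
      by_cases h0 : F.lf (Frame.ff k) v = 0
      · obtain ⟨l, hl, rfl⟩ := F.ff_verts_zero hv h0
        obtain ⟨w, hw, hwe⟩ := hXe k l hl.symm
        have hc := hc0 _ hv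
        have b1 := eps_lo k l
        have b2 := eps_hi k l
        refine ⟨c (F.u k l) * w, fun m => if m = l then c (F.u k l) * w * eps k l else 0,
          by positivity, fun m => ?_, ?_, ?_⟩
        · dsimp only
          split_ifs
          · positivity
          · exact le_rfl
        · rw [Finset.sum_ite_eq' Finset.univ l, if_pos (Finset.mem_univ l), mul_comm]
          exact mul_le_mul_of_nonneg_right b2 (by positivity)
        · rw [hwe]
          simp only [ite_smul, zero_smul]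
          rw [Finset.sum_ite_eq' Finset.univ l, if_pos (Finset.mem_univ l)]
          module
      · refine ⟨0, 0, le_rfl, fun l => le_rfl, by simp, ?_⟩
        rw [hc1 v hv h0]
        simp
  -- two independent vectors
  have hp : F.ca 0 0 ≠ 0 := F.ha0 0 0
  have hr : F.ca (F.ca 0 0) 0 ≠ 0 := F.ha0 _ _
  have hpr : F.ca 0 0 ≠ F.ca (F.ca 0 0) 0 := (F.hai _ _).symm
  refine contradiction_of_frame hpair hcut (hspan 0 (F.ca 0 0) hp.symm)
    (hspan 0 (F.ca (F.ca 0 0) 0) hr.symm) ?_ (by omega)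
  intro s t hst
  have := hX.indep3 (fun v hv => F.vertex hv) (F.u_mem hp.symm) (F.u_mem hr.symm) (F.u_mem hp)
    (fun h => hpr (F.u_inj hp.symm hr.symm h).2) (fun h => hp (F.u_inj hp.symm hp h).1.symm)
    (fun h => hp (F.u_inj hr.symm hp h).1.symm) (a := s) (b := t) (c := 0)
    (by rw [zero_smul, add_zero]; exact hst)
  exact ⟨this.1, this.2.1⟩

end Pool.Agent.Results.MP_822fc8_co.NotEdgeFacetScribable
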